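import Pool.Agent.W434.BW.StmA

/-! Project BW (helper434), part FUN: a subdirect relation to a simple algebra is full or a
function. -/

set_option autoImplicit false

namespace Pool.Agent.W696.BW

open Pool.Agent.W434.BW

/-- `k` steps of a relation -/
def It {Y : Type} (E : Y → Y → Prop) : ℕ → Y → Y → Prop
  | 0, y, y' => y = y'
  | k + 1, y, y' => ∃ z, It E k y z ∧ E z y'

theorem It.rtg {Y : Type} {E : Y → Y → Prop} {k : ℕ} {y y' : Y} (h : It E k y y') :
    Relation.ReflTransGen E y y' := by
  induction k generalizing y' with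
  | zero =>
    have h1 : y = y' := h
    rw [h1]
  | succ k ih =>
    obtain ⟨z, h1, h2⟩ := h
    exact (ih h1).tail h2

theorem exists_it {Y : Type} {E : Y → Y → Prop} {y y' : Y} (h : Relation.ReflTransGen E y y') :
    ∃ k, It E k y y' := by
  induction h with
  | refl => exact ⟨0, rfl⟩
  | tail _ h2 ih =>
    obtain ⟨k, hk⟩ := ih
    exact ⟨k + 1, _, hk, h2⟩

theorem It.mono {Y : Type} {E : Y → Y → Prop} (hE : ∀ y, E y y) {k m : ℕ} (hkm : k ≤ m)
    {y y' : Y} (h : It E k y y') : It E m y y' := by
  induction hkm with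
  | refl => exact h
  | step _ ih => exact ⟨y', ih, hE y'⟩

theorem func (hA : S_abs) : S_fun := by
  intro Ω ar u X Y _ _ a b R hNa hNb hAa hAb hS hR hSD
  set E : Y → Y → Prop := fun y y' => ∃ x, R x y ∧ R x y' with hE
  have hErefl : ∀ y, E y y := by
    intro y
    obtain ⟨x, hx⟩ := hSD.2 y
    exact ⟨x, hx, hx⟩
  have hEsymm : ∀ y y', E y y' → E y' y := fun y y' ⟨x, h1, h2⟩ => ⟨x, h2, h1⟩
  have hEcomp : ∀ ω y y', (∀ i, E (y i) (y' i)) → E (b ω y) (b ω y') := by
    intro ω y y' h
    choose x h1 h2 using h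
    exact ⟨a ω x, hR ω x y h1, hR ω x y' h2⟩
  have hItcomp : ∀ k ω y y', (∀ i, It E k (y i) (y' i)) → It E k (b ω y) (b ω y') := by
    intro k
    induction k with
    | zero =>
      intro ω y y' h
      have : y = y' := funext h
      rw [this]
      rfl
    | succ k ih =>
      intro ω y y' h
      choose z h1 h2 using h
      exact ⟨b ω z, ih ω y z h1, hEcomp ω z y' h2⟩
  have heq : Equivalence (Relation.ReflTransGen E) := by
    refine ⟨fun y => Relation.ReflTransGen.refl, fun {y y'} h => ?_, fun h1 h2 => h1.trans h2⟩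
    induction h with
    | refl => exact Relation.ReflTransGen.refl
    | tail _ h2 ih => exact (Relation.ReflTransGen.single (hEsymm _ _ h2)).trans ih
  have hcomp : Rel b b (Relation.ReflTransGen E) := by
    intro ω y y' h
    choose k hk using fun i => exists_it (h i)
    have h1 : ∀ i, It E (Finset.univ.sup k) (y i) (y' i) := fun i =>
      (hk i).mono hErefl (Finset.le_sup (Finset.mem_univ i))
    exact (hItcomp _ ω y y' h1).rtg
  rcases hS _ heq hcomp with h | h
  · right
    choose f hf using hSD.1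
    refine ⟨f, fun x y => ⟨fun hxy => ?_, fun hxy => ?_⟩⟩
    · exact h _ _ (Relation.ReflTransGen.single ⟨x, hxy, hf x⟩)
    · rw [hxy]; exact hf x
  · left
    have h1 := hA Ω ar u Y X b a (fun y x => R x y) hNb hNa hAb hAa
      (fun ω y x hyx => hR ω x y hyx) ⟨hSD.2, hSD.1⟩ h
    exact fun x y => h1 y x

end Pool.Agent.W696.BW
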